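import Mathlib
import Pool.Agent.H57.CP.Targets

/-!
# Module NRL: isometries which invert `S` and commute with `T` would be symmetries (MP_397744_co)
-/

namespace Pool.Agent.H5.CP

open Pool.Agent.H57.CP

theorem pai (S : Equiv.Perm H3) (x : H3) : S (S⁻¹ x) = x := S.apply_symm_apply x

theorem pia (S : Equiv.Perm H3) (x : H3) : S⁻¹ (S x) = x := S.symm_apply_apply x

theorem orb_self (v : H3) (S T : Equiv.Perm H3) : v ∈ Orb v S T := ⟨1, (Gr S T).one_mem, rfl⟩

theorem orb_mul {v : H3} {S T g : Equiv.Perm H3} (hg : g ∈ Gr S T) {x : H3} (hx : x ∈ Orb v S T) :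
    g x ∈ Orb v S T := by
  obtain ⟨h, hh, rfl⟩ := hx
  exact ⟨g * h, (Gr S T).mul_mem hg hh, rfl⟩

theorem S_mem (S T : Equiv.Perm H3) : S ∈ Gr S T := Subgroup.subset_closure (by simp)

theorem T_mem (S T : Equiv.Perm H3) : T ∈ Gr S T := Subgroup.subset_closure (by simp)

/-- intertwining powers -/
theorem inter_zpow {v : H3} {S T : Equiv.Perm H3} (R : H3 → H3) {A B : Equiv.Perm H3}
    (hA : A ∈ Gr S T) (h : ∀ x ∈ Orb v S T, R (A x) = B (R x)) (k : ℤ) :
    ∀ x ∈ Orb v S T, R ((A ^ k : Equiv.Perm H3) x) = (B ^ k : Equiv.Perm H3) (R x) := by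
  have hpos : ∀ n : ℕ, ∀ x ∈ Orb v S T,
      R ((A ^ n : Equiv.Perm H3) x) = (B ^ n : Equiv.Perm H3) (R x) := by
    intro n
    induction n with
    | zero => intro x _; simp
    | succ n ih =>
      intro x hx
      rw [pow_succ, pow_succ, Equiv.Perm.mul_apply, Equiv.Perm.mul_apply,
        ih _ (orb_mul hA hx), h x hx]
  intro x hx
  obtain ⟨n, rfl | rfl⟩ := k.eq_nat_or_neg
  · rw [zpow_natCast, zpow_natCast]
    exact hpos n x hx
  · rw [zpow_neg, zpow_neg, zpow_natCast, zpow_natCast]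
    have hy : ((A ^ n)⁻¹ : Equiv.Perm H3) x ∈ Orb v S T :=
      orb_mul ((Gr S T).inv_mem ((Gr S T).pow_mem hA n)) hx
    have := hpos n _ hy
    rw [pai] at this
    rw [this, pia]

section

variable {v : H3} {S T R : Equiv.Perm H3}

theorem inter_inv (hS : ∀ x ∈ Orb v S T, R (S x) = S⁻¹ (R x)) :
    ∀ x ∈ Orb v S T, R (S⁻¹ x) = S (R x) := by
  intro x hx
  have hy : S⁻¹ x ∈ Orb v S T := orb_mul ((Gr S T).inv_mem (S_mem S T)) hx
  have := hS _ hy
  rw [pai] at this
  rw [this, pai]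

theorem move (hS : ∀ x ∈ Orb v S T, R (S x) = S⁻¹ (R x))
    (hT : ∀ x ∈ Orb v S T, R (T x) = T (R x)) : ∀ g ∈ Gr S T, ∃ g' ∈ Gr S T,
    ∀ x ∈ Orb v S T, R (g x) = g' (R x) := by
  intro g hg
  induction hg using Subgroup.closure_induction with
  | mem x hx =>
    rcases hx with rfl | hx
    · exact ⟨x⁻¹, (Gr x T).inv_mem (S_mem x T), hS⟩
    · rw [Set.mem_singleton_iff] at hx
      subst hx
      exact ⟨x, T_mem S x, hT⟩
  | one => exact ⟨1, (Gr S T).one_mem, fun x _ => rfl⟩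
  | mul a b ha hb iha ihb =>
    obtain ⟨a', ha', h1⟩ := iha
    obtain ⟨b', hb', h2⟩ := ihb
    refine ⟨a' * b', (Gr S T).mul_mem ha' hb', fun x hx => ?_⟩
    rw [Equiv.Perm.mul_apply, Equiv.Perm.mul_apply, h1 _ (orb_mul hb hx), h2 x hx]
  | inv a ha iha =>
    obtain ⟨a', ha', h1⟩ := iha
    refine ⟨a'⁻¹, (Gr S T).inv_mem ha', fun x hx => ?_⟩
    have := h1 _ (orb_mul ((Gr S T).inv_mem ha) hx)
    rw [pai] at this
    rw [this, pia]

theorem lift (hS : ∀ x ∈ Orb v S T, R (S x) = S⁻¹ (R x))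
    (hT : ∀ x ∈ Orb v S T, R (T x) = T (R x)) : ∀ h ∈ Gr S T, ∃ g ∈ Gr S T,
    ∀ x ∈ Orb v S T, R (g x) = h (R x) := by
  intro h hh
  induction hh using Subgroup.closure_induction with
  | mem x hx =>
    rcases hx with rfl | hx
    · exact ⟨x⁻¹, (Gr x T).inv_mem (S_mem x T), inter_inv hS⟩
    · rw [Set.mem_singleton_iff] at hx
      subst hx
      exact ⟨x, T_mem S x, hT⟩
  | one => exact ⟨1, (Gr S T).one_mem, fun x _ => rfl⟩
  | mul a b ha hb iha ihb =>
    obtain ⟨a', ha', h1⟩ := iha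
    obtain ⟨b', hb', h2⟩ := ihb
    refine ⟨a' * b', (Gr S T).mul_mem ha' hb', fun x hx => ?_⟩
    rw [Equiv.Perm.mul_apply, Equiv.Perm.mul_apply, h1 _ (orb_mul hb' hx), h2 x hx]
  | inv a ha iha =>
    obtain ⟨a', ha', h1⟩ := iha
    refine ⟨a'⁻¹, (Gr S T).inv_mem ha', fun x hx => ?_⟩
    have := h1 _ (orb_mul ((Gr S T).inv_mem ha') hx)
    rw [pai] at this
    rw [this, pia]

end

/-- images of families of subsets of the orbit -/
theorem image_congr_sub {O : Set H3} {f : Set (Set H3)} (hf : ∀ e ∈ f, e ⊆ O) {A B : H3 → H3}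
    (h : ∀ x ∈ O, A x = B x) : (Set.image A) '' f = (Set.image B) '' f := by
  apply Set.image_congr
  intro e he
  exact Set.image_congr (fun x hx => h x (hf e he hx))

theorem image_image_mul (A B : Equiv.Perm H3) (f : Set (Set H3)) :
    (Set.image A) '' ((Set.image B) '' f) = (Set.image (A * B : Equiv.Perm H3)) '' f := by
  rw [Set.image_image]
  apply Set.image_congr
  intro e _
  rw [Set.image_image]
  rfl

theorem nrl : T_NRL := by
  rintro K v v' S T hK ⟨R, hR, hRv, hRv', hRx⟩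
  have hKV : K.V = Orb v S T := by rw [hK.eqK]; rfl
  have hKE : K.E = {e | ∃ g ∈ Gr S T, e = g '' {v, v'}} := by
    have := congrArg Geo.E hK.eqK
    exact this
  have hKF : K.F = {f | ∃ g ∈ Gr S T, f = (Set.image g) '' f0 v v' S T} := by
    have := congrArg Geo.F hK.eqK
    exact this
  rw [hKV] at hRx
  have hS : ∀ x ∈ Orb v S T, R (S x) = S⁻¹ (R x) := fun x hx => (hRx x hx).1
  have hT : ∀ x ∈ Orb v S T, R (T x) = T (R x) := fun x hx => (hRx x hx).2
  have hTT : ∀ x ∈ Orb v S T, T (T x) = x := by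
    intro x hx
    exact hK.TT x (by rw [hKV]; exact hx)
  have hv : v ∈ Orb v S T := orb_self v S T
  have hv' : v' ∈ Orb v S T := by
    rw [← hK.Tv]
    exact orb_mul (T_mem S T) hv
  have hpair : ({v, v'} : Set H3) ⊆ Orb v S T := by
    intro x hx
    rcases hx with rfl | hx
    · exact hv
    · rw [Set.mem_singleton_iff] at hx
      subst hx
      exact hv'
  have hP : (T * S⁻¹ : Equiv.Perm H3) ∈ Gr S T :=
    (Gr S T).mul_mem (T_mem S T) ((Gr S T).inv_mem (S_mem S T))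
  have hf0 : ∀ e ∈ f0 v v' S T, e ⊆ Orb v S T := by
    rintro e ⟨k, rfl⟩ x ⟨y, hy, rfl⟩
    exact orb_mul ((Gr S T).zpow_mem hP k) (hpair hy)
  -- images of the base edge
  have hbase : ∀ (A B : Equiv.Perm H3), (∀ x ∈ Orb v S T, R (A x) = B (R x)) →
      R '' (A '' {v, v'}) = B '' {v, v'} := by
    intro A B h
    rw [Set.image_pair, Set.image_pair, Set.image_pair, h v hv, h v' hv', hRv, hRv']
  have hinjE : Function.Injective (Set.image R) := R.injective.image_injective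
  have hinjF : Function.Injective (Set.image (Set.image R)) := hinjE.image_injective
  -- the base face
  have hface : (Set.image R) '' f0 v v' S T = (Set.image T) '' f0 v v' S T := by
    have h1 : ∀ k : ℤ, R '' (((T * S⁻¹) ^ k : Equiv.Perm H3) '' {v, v'}) =
        ((T * S) ^ k : Equiv.Perm H3) '' {v, v'} := by
      intro k
      apply hbase
      apply inter_zpow (R : H3 → H3) hP
      intro x hx
      rw [Equiv.Perm.mul_apply, Equiv.Perm.mul_apply,
        hT _ (orb_mul ((Gr S T).inv_mem (S_mem S T)) hx), inter_inv hS x hx]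
    have h2 : ∀ k : ℤ, T '' (((T * S⁻¹) ^ k : Equiv.Perm H3) '' {v, v'}) =
        ((T * S) ^ (-k) : Equiv.Perm H3) '' {v, v'} := by
      intro k
      have h3 : ∀ x ∈ Orb v S T, T (((T * S⁻¹) ^ k : Equiv.Perm H3) x) =
          ((S⁻¹ * T) ^ k : Equiv.Perm H3) (T x) := by
        apply inter_zpow (T : H3 → H3) hP
        intro x hx
        rw [Equiv.Perm.mul_apply, Equiv.Perm.mul_apply, hTT x hx,
          hTT _ (orb_mul ((Gr S T).inv_mem (S_mem S T)) hx)]
      have h4 : ∀ x ∈ Orb v S T, ((T⁻¹ * S) ^ (-k) : Equiv.Perm H3) x =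
          ((T * S) ^ (-k) : Equiv.Perm H3) x := by
        refine inter_zpow (fun x => x)
          ((Gr S T).mul_mem ((Gr S T).inv_mem (T_mem S T)) (S_mem S T)) ?_ (-k)
        intro x hx
        show (T⁻¹ * S : Equiv.Perm H3) x = (T * S : Equiv.Perm H3) x
        rw [Equiv.Perm.mul_apply, Equiv.Perm.mul_apply, Equiv.Perm.inv_eq_iff_eq,
          hTT _ (orb_mul (S_mem S T) hx)]
      have h5 : ((S⁻¹ * T) ^ k : Equiv.Perm H3) = (T⁻¹ * S) ^ (-k) := by
        rw [zpow_neg, ← inv_zpow, mul_inv_rev, inv_inv]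
      rw [Set.image_pair, Set.image_pair, h3 v hv, h3 v' hv', hK.Tv, hK.Tv', h5, h4 v hv,
        h4 v' hv', Set.image_pair, Set.pair_comm]
    ext e
    constructor
    · rintro ⟨e', ⟨k, rfl⟩, rfl⟩
      refine ⟨((T * S⁻¹) ^ (-k) : Equiv.Perm H3) '' {v, v'}, ⟨-k, rfl⟩, ?_⟩
      rw [h1, h2, neg_neg]
    · rintro ⟨e', ⟨k, rfl⟩, rfl⟩
      refine ⟨((T * S⁻¹) ^ (-k) : Equiv.Perm H3) '' {v, v'}, ⟨-k, rfl⟩, ?_⟩
      rw [h1, h2]
  have hfaceTT : (Set.image T) '' ((Set.image T) '' f0 v v' S T) = f0 v v' S T := by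
    rw [image_image_mul]
    have : (Set.image (T * T : Equiv.Perm H3)) '' f0 v v' S T =
        (Set.image (id : H3 → H3)) '' f0 v v' S T :=
      image_congr_sub hf0 (fun x hx => hTT x hx)
    rw [this]
    simp
  -- subsets of the orbit in the image of the base face
  apply hK.noR
  refine ⟨R, ⟨hR, ?_, ?_, ?_⟩, hRv, hRv', hface⟩
  · intro x
    rw [hKV]
    constructor
    · rintro ⟨h, hh, hx⟩
      obtain ⟨g, hg, h1⟩ := lift hS hT h hh
      refine ⟨g, hg, R.injective ?_⟩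
      rw [hx, h1 v hv, hRv]
    · rintro ⟨g, hg, rfl⟩
      obtain ⟨g', hg', h1⟩ := move hS hT g hg
      exact ⟨g', hg', by rw [h1 v hv, hRv]⟩
  · intro e
    rw [hKE]
    constructor
    · rintro ⟨h, hh, he⟩
      obtain ⟨g, hg, h1⟩ := lift hS hT h hh
      refine ⟨g, hg, hinjE ?_⟩
      rw [he, hbase g h h1]
    · rintro ⟨g, hg, rfl⟩
      obtain ⟨g', hg', h1⟩ := move hS hT g hg
      exact ⟨g', hg', hbase g g' h1⟩
  · intro f
    rw [hKF]
    have hcomm : ∀ (A B : Equiv.Perm H3), (∀ x ∈ Orb v S T, R (A x) = B (R x)) →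
        (Set.image R) '' ((Set.image A) '' f0 v v' S T) =
          (Set.image B) '' ((Set.image R) '' f0 v v' S T) := by
      intro A B h
      rw [image_image_mul, image_image_mul]
      exact image_congr_sub hf0 h
    constructor
    · rintro ⟨h, hh, hf⟩
      obtain ⟨g, hg, h1⟩ := lift hS hT (h * T) ((Gr S T).mul_mem hh (T_mem S T))
      refine ⟨g, hg, hinjF ?_⟩
      rw [hf, hcomm g (h * T) h1, hface, ← image_image_mul, hfaceTT]
    · rintro ⟨g, hg, rfl⟩
      obtain ⟨g', hg', h1⟩ := move hS hT g hg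
      refine ⟨g' * T, (Gr S T).mul_mem hg' (T_mem S T), ?_⟩
      rw [hcomm g g' h1, hface, image_image_mul]

end Pool.Agent.H5.CP
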