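import Mathlib
import Pool.Agent.H5.CP.NRL

/-!
# Module NCE: standard generators (MP_397744_co)
-/

namespace Pool.Agent.H5.CP

open Pool.Agent.H57.CP

theorem geo_ext {K L : Geo} (h1 : K.V = L.V) (h2 : K.E = L.E) (h3 : K.F = L.F) : K = L := by
  cases K; cases L; simp_all

theorem A0_symm {K : Geo} {Φ Ψ : Fg} (h : A0 K Φ Ψ) : A0 K Ψ Φ :=
  ⟨h.2.1, h.1, h.2.2.1.symm, h.2.2.2.1.symm, h.2.2.2.2.symm⟩

theorem A2_symm {K : Geo} {Φ Ψ : Fg} (h : A2 K Φ Ψ) : A2 K Ψ Φ :=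
  ⟨h.2.1, h.1, h.2.2.1.symm, h.2.2.2.1.symm, h.2.2.2.2.symm⟩

theorem mem_V {K : Geo} (hK : IsGeo K) {e : Set H3} (he : e ∈ K.E) {x : H3} (hx : x ∈ e) :
    x ∈ K.V := by
  obtain ⟨a, ha, b, hb, _, rfl⟩ := hK.ed e he
  rcases hx with rfl | hx
  · exact ha
  · rw [Set.mem_singleton_iff] at hx
    subst hx
    exact hb

theorem exists_face {K : Geo} (hK : IsGeo K) {e : Set H3} (he : e ∈ K.E) :
    ∃ f ∈ K.F, e ∈ f := by
  have h := hK.ef e he
  have hne : {f | f ∈ K.F ∧ e ∈ f}.Nonempty := by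
    rw [Set.nonempty_iff_ne_empty]
    intro h0
    rw [h0] at h
    simp at h
  obtain ⟨f, hf⟩ := hne
  exact ⟨f, hf.1, hf.2⟩

theorem exists_vertex {K : Geo} (hK : IsGeo K) {e : Set H3} (he : e ∈ K.E) : ∃ x, x ∈ e := by
  obtain ⟨a, ha, b, hb, _, rfl⟩ := hK.ed e he
  exact ⟨a, by simp⟩

theorem nce (h1 : T_FLA) (h2 : T_FLB) (h3 : T_FLD) (h4 : T_SYG) (h5 : T_NCA) (h6 : T_NCB)
    (h7 : T_NCC) (h8 : T_NCD) : T_NCE := by
  intro K hK hC
  obtain ⟨Φ, Φ0, Φ1, Φ2, Φ02, Φ12, S, T, hR⟩ := h5 K hK hC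
  obtain ⟨v, v', hne, hΦ, hΦ0, hΦ2, hSv, hTv, hTv'⟩ := h8 K Φ Φ0 Φ1 Φ2 Φ02 Φ12 S T hK hR
  obtain ⟨b1, b2, b3, b4, b5⟩ := h6 K Φ Φ0 Φ1 Φ2 Φ02 Φ12 S T hK hR
  have hall := h7 K Φ Φ0 Φ1 Φ2 Φ02 Φ12 S T hK hR
  obtain ⟨hone, hmul, hinv, hact, hact1⟩ := h4 K
  have hGr : ∀ g ∈ Gr S T, Sy K g := by
    intro g hg
    induction hg using Subgroup.closure_induction with
    | mem x hx =>
      rcases hx with rfl | hx
      · exact hR.sS
      · rw [Set.mem_singleton_iff] at hx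
        subst hx
        exact hR.sT
    | one => exact hone
    | mul a b ha hb iha ihb => exact hmul a b iha ihb
    | inv a ha iha => exact hinv a iha
  have hfl : Fl K Φ := hR.a0.1
  have hflv : Fl K (v, {v, v'}, f0 v v' S T) := by rw [← hΦ]; exact hfl
  have hf0F : f0 v v' S T ∈ K.F := hflv.2.2
  have heE : ({v, v'} : Set H3) ∈ K.E := (hK.fs _ hf0F).1 hflv.2.1
  have hvV : v ∈ K.V := mem_V hK heE (by simp)
  -- no symmetry maps the base flag to an adjacent flag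
  have hnadj : ∀ g, Sy K g → ¬ Adjacent Φ (act g Φ) := by
    intro g hg hadj
    have hfg : Fl K (act g Φ) := (h2 K g hg Φ Φ).1 hfl
    exact hC.adj Φ (act g Φ) hfl hfg hadj ⟨g, hg, rfl⟩
  have hfix : ∀ g, Sy K g → act g Φ = Φ → ∀ x ∈ K.V, g x = x := by
    intro g hg hgΦ x hx
    have := h3 K hK g 1 hg hone Φ hfl (by rw [hgΦ, hact1]) x hx
    rw [this]
    rfl
  have hP : (T * S⁻¹ : Equiv.Perm H3) ∈ Gr S T :=
    (Gr S T).mul_mem (T_mem S T) ((Gr S T).inv_mem (S_mem S T))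
  refine ⟨v, v', S, T, ⟨hK, ?_, hR.sS, hR.sT, hSv, hTv, hTv', hne, hflv, ?_, ?_, ?_, ?_, ?_, ?_⟩⟩
  · -- eqK
    apply geo_ext
    · ext x
      constructor
      · intro hx
        obtain ⟨e, he, hxe⟩ := hK.ve x hx
        obtain ⟨f, hf, hef⟩ := exists_face hK he
        obtain ⟨g, hg, h | h⟩ := hall (x, e, f) ⟨hxe, hef, hf⟩
        · refine ⟨g, hg, ?_⟩
          rw [hΦ] at h
          exact congrArg Prod.fst h
        · refine ⟨g, hg, ?_⟩
          rw [hΦ2] at h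
          exact congrArg Prod.fst h
      · rintro ⟨g, hg, rfl⟩
        exact ((hGr g hg).v v).2 hvV
    · ext e
      constructor
      · intro he
        obtain ⟨x, hxe⟩ := exists_vertex hK he
        obtain ⟨f, hf, hef⟩ := exists_face hK he
        obtain ⟨g, hg, h | h⟩ := hall (x, e, f) ⟨hxe, hef, hf⟩
        · refine ⟨g, hg, ?_⟩
          rw [hΦ] at h
          exact congrArg (fun z => z.2.1) h
        · refine ⟨g, hg, ?_⟩
          rw [hΦ2] at h
          exact congrArg (fun z => z.2.1) h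
      · rintro ⟨g, hg, rfl⟩
        exact ((hGr g hg).e _).2 heE
    · ext f
      constructor
      · intro hf
        obtain ⟨e, hef⟩ := (hK.fs f hf).2
        have he : e ∈ K.E := (hK.fs f hf).1 hef
        obtain ⟨x, hxe⟩ := exists_vertex hK he
        obtain ⟨g, hg, h | h⟩ := hall (x, e, f) ⟨hxe, hef, hf⟩
        · refine ⟨g, hg, ?_⟩
          rw [hΦ] at h
          exact congrArg (fun z => z.2.2) h
        · refine ⟨g * T, (Gr S T).mul_mem hg (T_mem S T), ?_⟩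
          rw [hΦ2] at h
          have h' : f = (Set.image g) '' ((Set.image T) '' f0 v v' S T) :=
            congrArg (fun z => z.2.2) h
          rw [h', image_image_mul]
      · rintro ⟨g, hg, rfl⟩
        exact ((hGr g hg).f _).2 hf0F
  · -- fT
    have h := hR.a2.2.2.2.2
    rw [hΦ, hΦ2] at h
    exact fun h' => h h'.symm
  · -- TT
    have hTΦ0 : act T Φ0 = Φ2 := by
      have e1 : A0 K (act T Φ) (act T Φ0) := (h2 K T hR.sT Φ Φ0).2.1 hR.a0
      rw [hR.eT] at e1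
      exact (h1 K hK Φ02 b3.2.1).1.unique e1 (A0_symm b3)
    have hTΦ02 : act T Φ02 = Φ := by
      have e1 : A2 K (act T Φ0) (act T Φ02) := (h2 K T hR.sT Φ0 Φ02).2.2.2 hR.a02
      rw [hTΦ0] at e1
      exact (h1 K hK Φ2 b3.1).2.2.unique e1 (A2_symm hR.a2)
    intro x hx
    have := hfix (T * T) (hmul T T hR.sT hR.sT) (by rw [hact, hR.eT, hTΦ02]) x hx
    exact this
  · -- Sne
    intro hS'
    have e1 : (act S Φ).2.1 = Φ.2.1 := by
      rw [hΦ]
      show S '' {v, v'} = {v, v'}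
      rw [Set.image_pair, hSv, hS']
    rw [hR.eS] at e1
    exact hR.a1.2.2.2.1 (by rw [← e1]; exact (hR.a12.2.2.2.1).symm)
  · -- Sm
    intro m hm
    have hsy : Sy K (S ^ m) := hGr _ ((Gr S T).pow_mem (S_mem S T) m)
    have hvm : (S ^ m : Equiv.Perm H3) v = v := by
      clear hm hsy
      induction m with
      | zero => rfl
      | succ m ih => rw [pow_succ, Equiv.Perm.mul_apply, hSv, ih]
    apply hfix _ hsy
    by_contra hcon
    apply hnadj _ hsy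
    have e1 : act (S ^ m) Φ = (v, {v, v'}, (Set.image (S ^ m : Equiv.Perm H3)) '' f0 v v' S T) := by
      rw [hΦ]
      show ((S ^ m : Equiv.Perm H3) v, (S ^ m : Equiv.Perm H3) '' {v, v'}, _) = _
      rw [Set.image_pair, hvm, hm]
    right; right
    rw [e1] at hcon ⊢
    rw [hΦ] at hcon ⊢
    refine ⟨rfl, rfl, ?_⟩
    intro h
    apply hcon
    have h' : f0 v v' S T = (Set.image (S ^ m : Equiv.Perm H3)) '' f0 v v' S T := h
    rw [← h']
  · -- Pm
    intro m hm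
    have hsy : Sy K ((T * S⁻¹) ^ m) := hGr _ ((Gr S T).pow_mem hP m)
    have hfm : (Set.image ((T * S⁻¹) ^ m : Equiv.Perm H3)) '' f0 v v' S T = f0 v v' S T := by
      have key : ∀ a b : ℤ, ((T * S⁻¹) ^ a : Equiv.Perm H3) ''
          (((T * S⁻¹) ^ b : Equiv.Perm H3) '' {v, v'}) =
            ((T * S⁻¹) ^ (a + b) : Equiv.Perm H3) '' {v, v'} := by
        intro a b
        rw [Set.image_image, zpow_add]
        rfl
      rw [← zpow_natCast]
      ext e
      constructor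
      · rintro ⟨e', ⟨k, rfl⟩, rfl⟩
        exact ⟨(m : ℤ) + k, key _ _⟩
      · rintro ⟨k, rfl⟩
        refine ⟨((T * S⁻¹) ^ (-(m : ℤ) + k) : Equiv.Perm H3) '' {v, v'}, ⟨_, rfl⟩, ?_⟩
        rw [key, add_neg_cancel_left]
    apply hfix _ hsy
    by_contra hcon
    apply hnadj _ hsy
    have e1 : act ((T * S⁻¹) ^ m) Φ =
        (v, ((T * S⁻¹) ^ m : Equiv.Perm H3) '' {v, v'}, f0 v v' S T) := by
      rw [hΦ]
      show (((T * S⁻¹) ^ m : Equiv.Perm H3) v, ((T * S⁻¹) ^ m : Equiv.Perm H3) '' {v, v'},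
        (Set.image ((T * S⁻¹) ^ m : Equiv.Perm H3)) '' f0 v v' S T) = _
      rw [hm, hfm]
    right; left
    rw [e1] at hcon ⊢
    rw [hΦ] at hcon ⊢
    refine ⟨rfl, ?_, rfl⟩
    intro h
    apply hcon
    have h' : ({v, v'} : Set H3) = ((T * S⁻¹) ^ m : Equiv.Perm H3) '' {v, v'} := h
    rw [← h']
  · -- noR
    rintro ⟨R, hRs, hRv, hRv', hRf⟩
    apply hnadj R hRs
    have e1 : act R Φ = Φ2 := by
      rw [hΦ, hΦ2]
      show (R v, R '' {v, v'}, (Set.image R) '' f0 v v' S T) = _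
      rw [Set.image_pair, hRv, hRv', hRf]
    rw [e1]
    exact Or.inr (Or.inr ⟨hR.a2.2.2.1, hR.a2.2.2.2.1, hR.a2.2.2.2.2⟩)

end Pool.Agent.H5.CP
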