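import Mathlib
import Pool.Agent.H83.CP.LD

/-!
# Module LE: from the set form to the literal definitions (MP_397744_co)
-/

namespace Pool.Agent.H5.CP

open Pool.Agent.H57.CP Pool.Agent.H57.CP.Cell Pool.Agent.H83.CP.LD

theorem image_eq_iff {X : Type*} {G : X → X} (hG : Function.Bijective G) (A : Set X) :
    G '' A = A ↔ ∀ x, G x ∈ A ↔ x ∈ A := by
  constructor
  · intro h x
    constructor
    · intro hx
      rw [← h] at hx
      obtain ⟨y, hy, hyx⟩ := hx
      rw [← hG.1 hyx]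
      exact hy
    · intro hx
      rw [← h]
      exact ⟨x, hx, rfl⟩
  · intro h
    ext y
    constructor
    · rintro ⟨x, hx, rfl⟩
      exact (h x).2 hx
    · intro hy
      obtain ⟨x, rfl⟩ := hG.2 y
      exact ⟨x, (h x).1 hy, rfl⟩

section

variable {K : Geo}

theorem real_V : (Cell.real o) '' {v : Cell K | Cell.rk v = 0} = K.V := by
  ext x
  constructor
  · rintro ⟨v, hv, rfl⟩
    cases v <;> simp [Cell.rk] at hv
    rename_i h
    exact h
  · intro hx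
    exact ⟨vt x hx, rfl, rfl⟩

theorem real_E (hK : IsGeo K) :
    im1 (Cell.rk (K := K)) (Cell.real o) '' {e | Cell.rk e = 1} = K.E := by
  ext x
  constructor
  · rintro ⟨v, hv, rfl⟩
    cases v <;> simp [Cell.rk] at hv
    rename_i h
    rw [im1_ed hK]
    exact h
  · intro hx
    exact ⟨ed x hx, rfl, im1_ed hK x hx⟩

theorem real_F (hK : IsGeo K) :
    im2 (Cell.rk (K := K)) (Cell.real o) '' {f | Cell.rk f = 2} = K.F := by
  ext x
  constructor
  · rintro ⟨v, hv, rfl⟩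
    cases v <;> simp [Cell.rk] at hv
    rename_i h
    rw [im2_fc hK]
    exact h
  · intro hx
    exact ⟨fc x hx, rfl, im2_fc hK x hx⟩

theorem sym_iff (hK : IsGeo K) (g : Equiv.Perm H3) :
    IsSymmetry (Cell.rk (K := K)) (Cell.real o) g ↔ Sy K g := by
  have b1 : Function.Bijective (Set.image g) :=
    ⟨g.injective.image_injective, g.surjective.image_surjective⟩
  have b2 : Function.Bijective (Set.image (Set.image g)) :=
    ⟨b1.1.image_injective, b1.2.image_surjective⟩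
  constructor
  · rintro ⟨h, h0, h1, h2⟩
    rw [real_V] at h0
    rw [real_E hK] at h1
    rw [real_F hK] at h2
    exact ⟨h, (image_eq_iff g.bijective _).1 h0, (image_eq_iff b1 _).1 h1,
      (image_eq_iff b2 _).1 h2⟩
  · rintro ⟨h, h0, h1, h2⟩
    refine ⟨h, ?_, ?_, ?_⟩
    · rw [real_V]
      exact (image_eq_iff g.bijective _).2 h0
    · rw [real_E hK]
      exact (image_eq_iff b1 _).2 h1
    · rw [real_F hK]
      exact (image_eq_iff b2 _).2 h2

/-- the flag in set form of a flag of cells -/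
noncomputable def fF (Φ : Cell K × Cell K × Cell K) : Fg :=
  (Cell.real o Φ.1, im1 (Cell.rk (K := K)) (Cell.real o) Φ.2.1,
    im2 (Cell.rk (K := K)) (Cell.real o) Φ.2.2)

theorem flag_form {Φ : Cell K × Cell K × Cell K} (h : IsFlag Cell.rk Φ) :
    ∃ (x : H3) (hx : x ∈ K.V) (a : Set H3) (ha : a ∈ K.E) (b : Set (Set H3)) (hb : b ∈ K.F),
      Φ = (vt x hx, ed a ha, fc b hb) ∧ x ∈ a ∧ a ∈ b := by
  obtain ⟨u, v, w⟩ := Φ
  obtain ⟨h1, h2, h3, h4, h5⟩ := h
  simp only at h1 h2 h3 h4 h5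
  cases u <;> simp [Cell.rk] at h1
  cases v <;> simp [Cell.rk] at h2
  cases w <;> simp [Cell.rk] at h3
  rename_i x hx a ha b hb
  exact ⟨x, hx, a, ha, b, hb, rfl, vt_le_ed.1 h4.le, ed_le_fc.1 h5.le⟩

theorem fF_mk (hK : IsGeo K) {x : H3} (hx : x ∈ K.V) {a : Set H3} (ha : a ∈ K.E)
    {b : Set (Set H3)} (hb : b ∈ K.F) : fF (vt x hx, ed a ha, fc b hb) = (x, a, b) := by
  unfold fF
  rw [im1_ed hK, im2_fc hK]
  rfl

theorem mk_flag {x : H3} (hx : x ∈ K.V) {a : Set H3} (ha : a ∈ K.E)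
    {b : Set (Set H3)} (hb : b ∈ K.F) (h1 : x ∈ a) (h2 : a ∈ b) :
    IsFlag Cell.rk (vt x hx, ed a ha, fc b hb) :=
  ⟨rfl, rfl, rfl, lt_of_le_of_ne (vt_le_ed.2 h1) (by rintro ⟨⟩),
    lt_of_le_of_ne (ed_le_fc.2 h2) (by rintro ⟨⟩)⟩

theorem fF_fl (hK : IsGeo K) {Φ : Cell K × Cell K × Cell K} (h : IsFlag Cell.rk Φ) :
    Fl K (fF Φ) := by
  obtain ⟨x, hx, a, ha, b, hb, rfl, h1, h2⟩ := flag_form h
  rw [fF_mk hK]
  exact ⟨h1, h2, hb⟩

theorem fF_surj (hK : IsGeo K) {Ψ : Fg} (h : Fl K Ψ) :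
    ∃ Φ : Cell K × Cell K × Cell K, IsFlag Cell.rk Φ ∧ fF Φ = Ψ := by
  obtain ⟨x, a, b⟩ := Ψ
  obtain ⟨h1, h2, h3⟩ := h
  simp only at h1 h2 h3
  have ha : a ∈ K.E := (hK.fs b h3).1 h2
  have hx : x ∈ K.V := by
    obtain ⟨u, hu, u', hu', -, hee⟩ := hK.ed _ ha
    rw [hee] at h1
    rcases h1 with rfl | hx
    · exact hu
    · rw [Set.mem_singleton_iff] at hx; subst hx; exact hu'
  exact ⟨(vt x hx, ed a ha, fc b h3), mk_flag hx ha h3 h1 h2, fF_mk hK hx ha h3⟩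

theorem orbit_iff (hK : IsGeo K) (Φ Ψ : Cell K × Cell K × Cell K) :
    SameOrbit (Cell.rk (K := K)) (Cell.real o) Φ Ψ ↔ Eqv K (fF Φ) (fF Ψ) := by
  constructor
  · rintro ⟨g, hg, h1, h2, h3⟩
    refine ⟨g, (sym_iff hK g).1 hg, ?_⟩
    exact Prod.ext h1 (Prod.ext h2 h3)
  · rintro ⟨g, hg, h⟩
    refine ⟨g, (sym_iff hK g).2 hg, congrArg Prod.fst h, congrArg (fun z => z.2.1) h,
      congrArg (fun z => z.2.2) h⟩

theorem adj_fF (hK : IsGeo K) {Φ Ψ : Cell K × Cell K × Cell K} (h1 : IsFlag Cell.rk Φ)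
    (h2 : IsFlag Cell.rk Ψ) (h : Adjacent Φ Ψ) : Adjacent (fF Φ) (fF Ψ) := by
  obtain ⟨x, hx, a, ha, b, hb, rfl, -, -⟩ := flag_form h1
  obtain ⟨y, hy, c, hc, d, hd, rfl, -, -⟩ := flag_form h2
  rw [fF_mk hK, fF_mk hK]
  simpa [Adjacent] using h

end

theorem le : T_LE := by
  intro K hK
  refine ⟨?_, ?_, ?_⟩
  · intro hC
    refine ⟨?_, ?_, ?_⟩
    · obtain ⟨Φ, Ψ, h1, h2, h3⟩ := hC.two
      obtain ⟨Φ', h1', rfl⟩ := fF_surj hK h1
      obtain ⟨Ψ', h2', rfl⟩ := fF_surj hK h2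
      exact ⟨Φ', Ψ', h1', h2', fun h => h3 ((orbit_iff hK _ _).1 h)⟩
    · intro Φ Ψ Θ h1 h2 h3
      rw [orbit_iff hK, orbit_iff hK, orbit_iff hK]
      exact hC.le_two _ _ _ (fF_fl hK h1) (fF_fl hK h2) (fF_fl hK h3)
    · intro Φ Ψ h1 h2 h
      rw [orbit_iff hK]
      exact hC.adj _ _ (fF_fl hK h1) (fF_fl hK h2) (adj_fF hK h1 h2 h)
  · rintro p q ⟨hp, hq⟩
    constructor
    · intro f hf
      cases f <;> simp [Cell.rk] at hf
      rename_i b hb
      rw [← hp b hb]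
      have : {x | ∃ e ∈ b, x ∈ e} = (Cell.real o) '' {v : Cell K | Cell.rk v = 0 ∧ v < fc b hb} := by
        ext x
        constructor
        · rintro ⟨e, he, hx⟩
          have heE : e ∈ K.E := (hK.fs b hb).1 he
          have hxV : x ∈ K.V := by
            obtain ⟨u, hu, u', hu', -, hee⟩ := hK.ed _ heE
            rw [hee] at hx
            rcases hx with rfl | hx
            · exact hu
            · rw [Set.mem_singleton_iff] at hx; subst hx; exact hu'
          exact ⟨vt x hxV, ⟨rfl, lt_of_le_of_ne (vt_le_fc.2 ⟨e, he, hx⟩) (by rintro ⟨⟩)⟩, rfl⟩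
        · rintro ⟨v, ⟨hv, hlt⟩, rfl⟩
          cases v <;> simp [Cell.rk] at hv
          exact vt_le_fc.1 hlt.le
      rw [this, Set.InjOn.encard_image]
      rintro u ⟨hu, -⟩ w ⟨hw, -⟩ h
      cases u <;> simp [Cell.rk] at hu
      cases w <;> simp [Cell.rk] at hw
      have h' : _ = _ := h
      simp only [Cell.real] at h'
      subst h'
      rfl
    · intro v hv
      cases v <;> simp [Cell.rk] at hv
      rename_i x hx
      rw [← hq x hx]
      have : {e | e ∈ K.E ∧ x ∈ e} = (im1 (Cell.rk (K := K)) (Cell.real o)) ''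
          {e : Cell K | Cell.rk e = 1 ∧ vt x hx < e} := by
        ext e
        constructor
        · rintro ⟨he, hxe⟩
          exact ⟨ed e he, ⟨rfl, lt_of_le_of_ne (vt_le_ed.2 hxe) (by rintro ⟨⟩)⟩, im1_ed hK e he⟩
        · rintro ⟨e, ⟨he, hlt⟩, rfl⟩
          cases e <;> simp [Cell.rk] at he
          rename_i a ha
          rw [im1_ed hK]
          exact ⟨ha, vt_le_ed.1 hlt.le⟩
      rw [this, Set.InjOn.encard_image]
      rintro u ⟨hu, -⟩ w ⟨hw, -⟩ h
      cases u <;> simp [Cell.rk] at hu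
      cases w <;> simp [Cell.rk] at hw
      rw [im1_ed hK, im1_ed hK] at h
      subst h
      rfl
  · intro L hL e v w he hv hw h1 h2 hne
    cases e <;> simp [Cell.rk] at he
    cases v <;> simp [Cell.rk] at hv
    cases w <;> simp [Cell.rk] at hw
    rename_i a ha x hx y hy
    refine hL a ha x (vt_le_ed.1 h1.le) y (vt_le_ed.1 h2.le) ?_
    rintro rfl
    exact hne rfl

end Pool.Agent.H5.CP
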